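import Pool.Agent.Y489.GE.Stm

/-!
# Birkhoff shortening of polygons (job of the project GE of helper489)
-/

set_option autoImplicit false

open Set Topology unitInterval

noncomputable section

namespace Pool.Agent.Y590.GE

open Pool.Agent.Y489.GE

variable {X : Type} [MetricSpace X] {r : ℝ} {m : X → X → ℝ → X}

/-- continuity of the motion of polygons -/
theorem ph_cont (hm : GMap X r m) (N : ℕ) {δ : ℝ} (hδ : δ ≤ r) {Z : Type} [TopologicalSpace Z]
    {S : Set Z} {x : Z → (ZMod N → X)} {t : Z → ℝ} (hx : ContinuousOn x S)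
    (ht : ContinuousOn t S) (hxP : ∀ z ∈ S, x z ∈ Pol X N δ)
    (htI : ∀ z ∈ S, t z ∈ Icc (0 : ℝ) 1) : ContinuousOn (fun z => ph m N (t z) (x z)) S := by
  rw [continuousOn_pi]
  intro i
  have h1 : ContinuousOn (fun z => ((x z i, x z (i + 1), t z) : X × X × ℝ)) S := by
    refine ContinuousOn.prodMk ?_ (ContinuousOn.prodMk ?_ ht)
    · exact (continuous_apply i).comp_continuousOn hx
    · exact (continuous_apply (i + 1)).comp_continuousOn hx
  exact hm.cont.comp h1 (fun z hz => ⟨(hxP z hz i).trans hδ, htI z hz⟩)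

theorem En_cont (N : ℕ) [NeZero N] : Continuous (fun x : ZMod N → X => En N x) := by
  unfold En
  refine continuous_finsetSum _ fun i _ => ?_
  exact ((continuous_apply i).dist (continuous_apply (i + 1))).pow 2

theorem En_nonneg (N : ℕ) [NeZero N] (x : ZMod N → X) : 0 ≤ En N x :=
  Finset.sum_nonneg fun _ _ => by positivity

theorem En_le (N : ℕ) [NeZero N] {δ : ℝ} {x : ZMod N → X} (hx : x ∈ Pol X N δ) :
    En N x ≤ N * δ ^ 2 := by
  have h : ∀ i ∈ (Finset.univ : Finset (ZMod N)), dist (x i) (x (i + 1)) ^ 2 ≤ δ ^ 2 :=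
    fun i _ => pow_le_pow_left₀ dist_nonneg (hx i) 2
  have h1 := Finset.sum_le_card_nsmul _ _ _ h
  rw [Finset.card_univ, ZMod.card, nsmul_eq_mul] at h1
  exact h1

theorem side_lt (N : ℕ) [NeZero N] {e : ℝ} (he : 0 < e) {x : ZMod N → X} (hx : En N x < e ^ 2)
    (i : ZMod N) : dist (x i) (x (i + 1)) < e := by
  have h1 : dist (x i) (x (i + 1)) ^ 2 ≤ En N x :=
    Finset.single_le_sum (f := fun i : ZMod N => dist (x i) (x (i + 1)) ^ 2)
      (fun _ _ => by positivity) (Finset.mem_univ i)
  exact lt_of_pow_lt_pow_left₀ 2 he.le (h1.trans_lt hx)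

theorem far_le (N : ℕ) [NeZero N] {e : ℝ} (he : 0 < e) {x : ZMod N → X} (hx : En N x < e ^ 2)
    (i : ZMod N) : dist (x i) (x 0) ≤ N * e := by
  have h1 : ∀ n : ℕ, dist (x (n : ZMod N)) (x 0) ≤ n * e := by
    intro n
    induction n with
    | zero => simp
    | succ n ih =>
      have h2 := dist_triangle (x ((n + 1 : ℕ) : ZMod N)) (x (n : ZMod N)) (x 0)
      have h3 := side_lt N he hx (n : ZMod N)
      rw [dist_comm] at h3
      push_cast at h2 ⊢
      nlinarith
  have h2 := h1 i.val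
  rw [ZMod.natCast_zmod_val] at h2
  have h3 : (i.val : ℝ) ≤ N := by exact_mod_cast (ZMod.val_lt i).le
  exact h2.trans (mul_le_mul_of_nonneg_right h3 he.le)

theorem Pol_compact [CompactSpace X] (N : ℕ) [NeZero N] (δ : ℝ) : IsCompact (Pol X N δ) := by
  refine IsClosed.isCompact ?_
  have : Pol X N δ = ⋂ i : ZMod N, {x : ZMod N → X | dist (x i) (x (i + 1)) ≤ δ} := by
    ext x
    simp [Pol]
  rw [this]
  refine isClosed_iInter fun i => ?_
  exact isClosed_le ((continuous_apply i).dist (continuous_apply (i + 1))) continuous_const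

theorem t_BK (hEN : S_EN) : S_BK := by
  intro X _ _ r m hm N _ δ hδ hδr hne
  have hr : 0 ≤ r := hδ.le.trans hδr
  have hN : (0 : ℝ) < N := by exact_mod_cast Nat.pos_of_ne_zero (NeZero.ne N)
  have hhalf : (1 / 2 : ℝ) ∈ Icc (0 : ℝ) 1 := ⟨by norm_num, by norm_num⟩
  set e : ℝ := δ / (2 * N) with he
  have he0 : 0 < e := by positivity
  -- uniform decrease
  have hdec : ∃ η : ℝ, 0 < η ∧ ∀ x ∈ Pol X N δ, e ^ 2 ≤ En N x →
      En N (ph m N (1 / 2) x) ≤ En N x - η := by
    have hc1 : ContinuousOn (fun x : ZMod N → X => ph m N (1 / 2) x) (Pol X N δ) :=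
      ph_cont hm N hδr continuousOn_id continuousOn_const (fun z hz => hz) (fun _ _ => hhalf)
    have hc : ContinuousOn (fun x : ZMod N → X => En N x - En N (ph m N (1 / 2) x))
        (Pol X N δ) :=
      (En_cont N).continuousOn.sub ((En_cont N).comp_continuousOn hc1)
    set K : Set (ZMod N → X) := Pol X N δ ∩ {x | e ^ 2 ≤ En N x} with hK
    have hKc : IsCompact K :=
      (Pol_compact N δ).inter_right (isClosed_le continuous_const (En_cont N))
    rcases K.eq_empty_or_nonempty with h0 | h0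
    · refine ⟨1, one_pos, fun x hx hx2 => ?_⟩
      have : x ∈ K := ⟨hx, hx2⟩
      rw [h0] at this
      exact this.elim
    · obtain ⟨x0, hx0, hmin⟩ := hKc.exists_isMinOn h0 (hc.mono inter_subset_left)
      refine ⟨En N x0 - En N (ph m N (1 / 2) x0), ?_, fun x hx hx2 => ?_⟩
      · have h1 := (hEN X r m hm N δ hδr x0 hx0.1 (1 / 2) hhalf).2
        have h2 := hne x0 hx0.1 hx0.2
        exact sub_pos.2 (lt_of_le_of_ne h1 h2)
      · have h3 : En N x0 - En N (ph m N (1 / 2) x0) ≤ En N x - En N (ph m N (1 / 2) x) :=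
          hmin (⟨hx, hx2⟩ : x ∈ K)
        linarith
  obtain ⟨η, hη, hdec⟩ := hdec
  -- the shortening map
  let F : ↥(Pol X N δ) → ↥(Pol X N δ) := fun x =>
    ⟨ph m N (1 / 2) x.1, (hEN X r m hm N δ hδr x.1 x.2 (1 / 2) hhalf).1⟩
  have hFc : Continuous F := by
    refine Continuous.subtype_mk ?_ _
    rw [← continuousOn_univ]
    exact ph_cont hm N hδr continuous_subtype_val.continuousOn continuousOn_const
      (fun z _ => z.2) (fun _ _ => hhalf)
  have hFen : ∀ x, En N (F x).1 ≤ En N x.1 := fun x =>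
    (hEN X r m hm N δ hδr x.1 x.2 (1 / 2) hhalf).2
  have hFfix : ∀ x : ↥(Pol X N δ), (∀ i, x.1 i = x.1 0) → F x = x := by
    intro x hx
    apply Subtype.ext
    funext i
    change m (x.1 i) (x.1 (i + 1)) (1 / 2) = x.1 i
    rw [hx (i + 1), hx i]
    exact hm.self hr _ hhalf
  have hFkfix : ∀ k : ℕ, ∀ x : ↥(Pol X N δ), (∀ i, x.1 i = x.1 0) → F^[k] x = x := by
    intro k x hx
    exact Function.iterate_fixed (hFfix x hx) k
  have hFken : ∀ k : ℕ, ∀ x : ↥(Pol X N δ), En N (F^[k] x).1 < e ^ 2 ∨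
      En N (F^[k] x).1 ≤ En N x.1 - k * η := by
    intro k x
    induction k with
    | zero => right; simp
    | succ k ih =>
      rw [Function.iterate_succ_apply']
      rcases ih with h | h
      · left; exact (hFen _).trans_lt h
      · rcases lt_or_ge (En N (F^[k] x).1) (e ^ 2) with h2 | h2
        · left; exact (hFen _).trans_lt h2
        · right
          have h3 := hdec (F^[k] x).1 (F^[k] x).2 h2
          change En N (ph m N (1 / 2) (F^[k] x).1) ≤ _
          push_cast
          linarith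
  obtain ⟨k, hk⟩ := exists_nat_gt (N * δ ^ 2 / η)
  have hkk : ∀ x : ↥(Pol X N δ), En N (F^[k] x).1 < e ^ 2 := by
    intro x
    rcases hFken k x with h | h
    · exact h
    · have h1 := En_le N x.2
      have h2 := En_nonneg N (F^[k] x).1
      rw [div_lt_iff₀ hη] at hk
      exfalso
      linarith
  -- the homotopy of one step
  have hstep : Htp (Y := ↥(Pol X N δ)) (W := ZMod N → X) (Pol X N δ)
      {x | ∀ i, x.1 i = x.1 0} (fun x => x.1) (fun x => (F x).1) := by
    have hs : ∀ s ∈ Icc (0 : ℝ) 1, s / 2 ∈ Icc (0 : ℝ) 1 := fun s hs =>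
      ⟨by linarith [hs.1], by linarith [hs.2]⟩
    refine Htp.of_clamp (fun y s => ph m N (s / 2) y.1) ?_ ?_ ?_ ?_ ?_
    · exact ph_cont hm N hδr (continuous_subtype_val.comp continuous_fst).continuousOn
        (continuous_snd.div_const 2).continuousOn (fun z _ => z.1.2) (fun z hz => hs _ hz)
    · intro y s h
      exact (hEN X r m hm N δ hδr y.1 y.2 (s / 2) (hs s h)).1
    · intro y
      funext i
      change m (y.1 i) (y.1 (i + 1)) (0 / 2) = y.1 i
      rw [zero_div]
      exact hm.zero _ _ ((y.2 i).trans hδr)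
    · intro y
      rfl
    · intro y hy s h
      funext i
      change m (y.1 i) (y.1 (i + 1)) (s / 2) = y.1 i
      rw [hy (i + 1), hy i]
      exact hm.self hr _ (hs s h)
  have hiter : ∀ k : ℕ, Htp (Y := ↥(Pol X N δ)) (W := ZMod N → X) (Pol X N δ)
      {x | ∀ i, x.1 i = x.1 0} (fun x => x.1) (fun x => (F^[k] x).1) := by
    intro k
    induction k with
    | zero =>
      refine ⟨fun y _ => y.1, ?_, ?_, ?_, ?_, ?_⟩
      · exact continuous_subtype_val.comp continuous_fst
      · exact fun y _ => y.2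
      · exact fun _ _ _ => rfl
      · exact fun _ _ _ => rfl
      · exact fun _ _ _ => rfl
    | succ k ih =>
      have h1 := hstep.precomp (Z' := {x : ↥(Pol X N δ) | ∀ i, x.1 i = x.1 0}) (F^[k])
        (hFc.iterate k) (fun y hy => by rw [hFkfix k y hy]; exact hy)
      have h2 := ih.trans h1
      have h3 : (fun x : ↥(Pol X N δ) => (F^[k + 1] x).1) = fun x => (F (F^[k] x)).1 := by
        funext x
        rw [Function.iterate_succ_apply']
      rw [h3]
      exact h2
  -- the cone
  have hfar : ∀ y : ↥(Pol X N δ), ∀ i, dist ((F^[k] y).1 i) ((F^[k] y).1 0) ≤ δ / 2 := by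
    intro y i
    have h1 := far_le N he0 (hkk y) i
    have h2 : (N : ℝ) * e = δ / 2 := by
      rw [he]
      field_simp
    rwa [h2] at h1
  have hfar' : ∀ y : ↥(Pol X N δ), ∀ i, dist ((F^[k] y).1 i) ((F^[k] y).1 0) ≤ r :=
    fun y i => (hfar y i).trans (by linarith)
  refine ⟨fun x => (F^[k] x).1 0, (hiter k).trans ?_⟩
  refine Htp.of_clamp (fun y s i => m ((F^[k] y).1 i) ((F^[k] y).1 0) s) ?_ ?_ ?_ ?_ ?_
  · rw [continuousOn_pi]
    intro i
    have hc : Continuous (fun z : ↥(Pol X N δ) × ℝ => (F^[k] z.1).1) :=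
      continuous_subtype_val.comp ((hFc.iterate k).comp continuous_fst)
    have h1 : Continuous (fun z : ↥(Pol X N δ) × ℝ =>
        (((F^[k] z.1).1 i, (F^[k] z.1).1 0, z.2) : X × X × ℝ)) := by
      refine Continuous.prodMk ?_ (Continuous.prodMk ?_ continuous_snd)
      · exact (continuous_apply i).comp hc
      · exact (continuous_apply 0).comp hc
    exact hm.cont.comp h1.continuousOn (fun z hz => ⟨hfar' z.1 i, hz⟩)
  · intro y s hs i
    have h1 := hm.dist_right (hfar' y i) hs
    have h2 := hm.dist_right (hfar' y (i + 1)) hs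
    have h3 := hfar y i
    have h4 := hfar y (i + 1)
    have h5 : (0 : ℝ) ≤ dist ((F^[k] y).1 i) ((F^[k] y).1 0) := dist_nonneg
    have h6 : (0 : ℝ) ≤ dist ((F^[k] y).1 (i + 1)) ((F^[k] y).1 0) := dist_nonneg
    refine (dist_triangle_right _ _ ((F^[k] y).1 0)).trans ?_
    rw [h1, h2]
    nlinarith [hs.1, hs.2, mul_nonneg hs.1 h5, mul_nonneg hs.1 h6]
  · intro y
    funext i
    exact hm.zero _ _ (hfar' y i)
  · intro y
    funext i
    exact hm.one _ _ (hfar' y i)
  · intro y hy s hs
    funext i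
    rw [hFkfix k y hy, hy i]
    exact hm.self hr _ hs

end Pool.Agent.Y590.GE
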